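import Pool.Agent.H65FJ.Uni

/-!
# Farrell–Jones groups: embeddings in groups with two generators and in binate (acyclic) groups

`C` is any class of groups with the closure properties `ClosedE C`: it contains `ℤ` and is closed
under subgroups, finite products, free products, overgroups of finite index, directed colimits and
satisfies the extension criterion with virtually cyclic subgroups. All this is known for the class of
the groups that satisfy the K- and L-theoretic Farrell–Jones conjecture with coefficients and finite
wreath products.

(1) For every countable family of countable groups in `C` there is a group in `C` which is generated
by two elements and contains a copy of every group of the family (and is torsion-free if the groups of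
the family are). In particular every countable group in `C` embeds in a two-generator group in `C`.

(2) Every group in `C` embeds in a binate group in `C`, which is torsion-free if the given group is. A
group `L` is binate if for each finitely generated subgroup `H` there are a homomorphism `φ : H → L`
and an element `u` such that `h = [u, φ h]` for all `h` in `H`. Binate groups are acyclic (Berrick); in
particular every element is a commutator.

(3) There is one group in `C` with two generators which contains a copy of every finitely presented
group in `C`, and one torsion-free group in `C` with two generators which contains a copy of every
torsion-free finitely presented group in `C`.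

So the classical embedding theorems of Higman, Neumann and Neumann and of Baumslag, Dyer and Heller
hold within the class of Farrell–Jones groups. The classical constructions use HNN extensions or
unrestricted wreath products, for which closure of the class of Farrell–Jones groups is not known.

Outline of the proof. Extensions of groups in `C` by the group of the functions with finite support on
a set with values in a group in `C` are in `C` if all elements act by a permutation of the set followed
by the conjugation by some function, not necessarily with finite support (the criterion for kernels
with finitary permutations in `Pool.Agent.H65FJ.Finitary`). The group of the functions `ℤ → G` which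
are constant near `-∞` and trivial near `∞`, extended by the translations, is an extension of `G × ℤ` of
this kind; in this group `P` all elements of `G` (functions supported in `0`) are commutators
`[d, φ g]` with the translation `d`, where `φ g` has the value `g` on the negative integers. Iteration
gives (2). For (1) let the free group with generators `t`, `z` act on the functions with finite support
`ℤ → P` such that `t` is the translation and `z` the conjugation by a function with the values `φ g`,
`g` in `G`. Then `G` is contained in the subgroup generated by `t`, `z` and the function with the value
`d` at `0`. A second step of this kind with the set `{0, 1, 3, 9}`, in which all differences are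
different, gives two generators.
-/

set_option autoImplicit false

namespace Pool.Agent.Results.MP_b6f35e_al.TwoGeneratorsAndBinate

open Pool.Agent.Y110.FJ (ClosedE)
open Pool.Agent.H65FJ (TorFree Binate FP)

/-- Let `C` be a class of groups with the closure properties `ClosedE C`. (1) For every countable
family of countable groups `A v` in `C` there is a group `K` in `C` which is generated by two elements
and contains a copy of each `A v`; if all `A v` are torsion-free, then `K` can be chosen torsion-free.
(2) Every group `G` in `C` embeds in a binate group `L` in `C`; if `G` is torsion-free, then `L` can be
chosen torsion-free. (3) There is a group in `C` which is generated by two elements and contains a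
copy of every finitely presented group in `C`; the same holds for torsion-free groups. -/
theorem result (C : ∀ (G : Type) [Group G], Prop) (hC : ClosedE C) :
    (∀ (V : Type) [Countable V] (A : V → Type) [∀ v, Group (A v)] [∀ v, Countable (A v)],
      (∀ v, C (A v)) →
      ∃ (K : Type) (_ : Group K) (x y : K), C K ∧ Subgroup.closure {x, y} = ⊤ ∧
        (∀ v, ∃ f : A v →* K, Function.Injective f) ∧ ((∀ v, TorFree (A v)) → TorFree K)) ∧
    (∀ (G : Type) [Group G], C G →
      ∃ (L : Type) (_ : Group L) (f : G →* L), C L ∧ Function.Injective f ∧ Binate L ∧
        (TorFree G → TorFree L)) ∧
    (∃ (K : Type) (_ : Group K) (x y : K), C K ∧ Subgroup.closure {x, y} = ⊤ ∧
      ∀ (n : ℕ) (R : Finset (FreeGroup (Fin n))), C (FP n R) →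
        ∃ f : FP n R →* K, Function.Injective f) ∧
    (∃ (K : Type) (_ : Group K) (x y : K), C K ∧ TorFree K ∧ Subgroup.closure {x, y} = ⊤ ∧
      ∀ (n : ℕ) (R : Finset (FreeGroup (Fin n))), C (FP n R) → TorFree (FP n R) →
        ∃ f : FP n R →* K, Function.Injective f) :=
  ⟨fun _ _ A _ _ hA => Pool.Agent.H65FJ.fam A hC hA,
    fun G _ hG => Pool.Agent.H65FJ.binate hC G hG,
    Pool.Agent.H65FJ.univ hC, Pool.Agent.H65FJ.univ_tf hC⟩

end Pool.Agent.Results.MP_b6f35e_al.TwoGeneratorsAndBinate
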